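import Pool.Agent.Helper83.RB.St

set_option autoImplicit false

namespace Pool.Agent.Helper89.RB

open Pool.Agent.Helper83.RB
open scoped commutatorElement

private theorem ev_append {r : ℕ} {B : Type} [Monoid B] (y : Fin r → B) (v w : List (Fin r)) :
    ev y (v ++ w) = ev y v * ev y w := by
  simp [ev, List.map_append, List.prod_append]

/-- the augmentation filtration -/
private def JJ {m : ℕ} {B : Type} [Ring B] (y : Fin m → B) (k : ℕ) : AddSubgroup B :=
  AddSubgroup.closure {z : B | ∃ w : List (Fin m), k ≤ w.length ∧ z = ev y w}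

private theorem JJ_anti {m : ℕ} {B : Type} [Ring B] (y : Fin m → B) {k l : ℕ} (h : k ≤ l) :
    JJ y l ≤ JJ y k := by
  apply AddSubgroup.closure_mono
  rintro z ⟨w, hw, rfl⟩
  exact ⟨w, le_trans h hw, rfl⟩

private theorem JJ_mul {m : ℕ} {B : Type} [Ring B] (y : Fin m → B) {k l : ℕ} {a b : B}
    (ha : a ∈ JJ y k) (hb : b ∈ JJ y l) : a * b ∈ JJ y (k + l) := by
  unfold JJ at ha
  induction ha using AddSubgroup.closure_induction with
  | mem x hx =>
    obtain ⟨v, hv, rfl⟩ := hx
    unfold JJ at hb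
    induction hb using AddSubgroup.closure_induction with
    | mem z hz =>
      obtain ⟨w, hw, rfl⟩ := hz
      rw [← ev_append]
      refine AddSubgroup.subset_closure ⟨v ++ w, ?_, rfl⟩
      rw [List.length_append]
      omega
    | zero => rw [mul_zero]; exact AddSubgroup.zero_mem _
    | add z z' _ _ h1 h2 => rw [mul_add]; exact AddSubgroup.add_mem _ h1 h2
    | neg z _ h1 => rw [mul_neg]; exact AddSubgroup.neg_mem _ h1
  | zero => rw [zero_mul]; exact AddSubgroup.zero_mem _
  | add z z' _ _ h1 h2 => rw [add_mul]; exact AddSubgroup.add_mem _ h1 h2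
  | neg z _ h1 => rw [neg_mul]; exact AddSubgroup.neg_mem _ h1

private theorem JJ_one {m : ℕ} {B : Type} [Ring B] (y : Fin m → B) : (1 : B) ∈ JJ y 0 :=
  AddSubgroup.subset_closure ⟨[], Nat.zero_le _, by simp [ev]⟩

/-- **JFI** -/
theorem hJFI : StJFI := by
  intro p m T N _ hp hexp f hf B _ φ hT
  set y : Fin m → B := fun i => ((φ (f i) : Bˣ) : B) - 1 with hy
  have hmul1 : ∀ g h : N, ((φ g : Bˣ) : B) - 1 ∈ JJ y 1 → ((φ h : Bˣ) : B) - 1 ∈ JJ y 1 →
      ((φ (g * h) : Bˣ) : B) - 1 ∈ JJ y 1 := by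
    intro g h hg hh
    have e : ((φ (g * h) : Bˣ) : B) - 1 = (((φ g : Bˣ) : B) - 1) * (((φ h : Bˣ) : B) - 1) +
        ((((φ g : Bˣ) : B) - 1) + (((φ h : Bˣ) : B) - 1)) := by
      rw [map_mul, Units.val_mul]
      noncomm_ring
    rw [e]
    refine AddSubgroup.add_mem _ (JJ_anti y (by omega) (JJ_mul y hg hh)) ?_
    exact AddSubgroup.add_mem _ hg hh
  have hone1 : ((φ (1 : N) : Bˣ) : B) - 1 ∈ JJ y 1 := by
    rw [map_one, Units.val_one, sub_self]
    exact AddSubgroup.zero_mem _
  have hpow : ∀ (g : N), ((φ g : Bˣ) : B) - 1 ∈ JJ y 1 → ∀ n : ℕ,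
      ((φ (g ^ n) : Bˣ) : B) - 1 ∈ JJ y 1 := by
    intro g hg n
    induction n with
    | zero => rw [pow_zero]; exact hone1
    | succ n ih => rw [pow_succ]; exact hmul1 _ _ ih hg
  have hall : ∀ g : N, ((φ g : Bˣ) : B) - 1 ∈ JJ y 1 := by
    intro g
    have hg : g ∈ Subgroup.closure (Set.range f) := by rw [hf]; exact Subgroup.mem_top g
    induction hg using Subgroup.closure_induction with
    | mem x hx =>
      obtain ⟨i, rfl⟩ := hx
      refine AddSubgroup.subset_closure ⟨[i], by simp, ?_⟩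
      simp [ev, hy]
    | one => exact hone1
    | mul a b _ _ ha hb => exact hmul1 a b ha hb
    | inv a _ ha =>
      have e : a⁻¹ = a ^ (p - 1) := by
        rw [inv_eq_iff_mul_eq_one]
        rw [← pow_succ', Nat.sub_add_cancel hp]
        exact hexp a
      rw [e]
      exact hpow a ha _
  have hval : ∀ g : N, ((φ g : Bˣ) : B) ∈ JJ y 0 := by
    intro g
    have h1 := AddSubgroup.add_mem _ (JJ_anti y (Nat.zero_le 1) (hall g)) (JJ_one y)
    rwa [sub_add_cancel] at h1
  -- the subgroup of the elements congruent to one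
  let S : ℕ → Subgroup N := fun k =>
    { carrier := {g : N | ((φ g : Bˣ) : B) - 1 ∈ JJ y k}
      one_mem' := by
        change ((φ (1 : N) : Bˣ) : B) - 1 ∈ JJ y k
        rw [map_one, Units.val_one, sub_self]
        exact AddSubgroup.zero_mem _
      mul_mem' := by
        intro a b ha hb
        change ((φ a : Bˣ) : B) - 1 ∈ JJ y k at ha
        change ((φ b : Bˣ) : B) - 1 ∈ JJ y k at hb
        change ((φ (a * b) : Bˣ) : B) - 1 ∈ JJ y k
        have e : ((φ (a * b) : Bˣ) : B) - 1 = (((φ a : Bˣ) : B) - 1) * ((φ b : Bˣ) : B) +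
            (((φ b : Bˣ) : B) - 1) := by
          rw [map_mul, Units.val_mul]
          noncomm_ring
        rw [e]
        refine AddSubgroup.add_mem _ ?_ hb
        have := JJ_mul y ha (hval b)
        rwa [add_zero] at this
      inv_mem' := by
        intro a ha
        change ((φ a : Bˣ) : B) - 1 ∈ JJ y k at ha
        change ((φ a⁻¹ : Bˣ) : B) - 1 ∈ JJ y k
        have e : ((φ a⁻¹ : Bˣ) : B) - 1 = -(((φ a⁻¹ : Bˣ) : B) * (((φ a : Bˣ) : B) - 1)) := by
          rw [mul_sub, ← Units.val_mul, ← map_mul, inv_mul_cancel, map_one, Units.val_one,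
            mul_one, neg_sub]
        rw [e]
        refine AddSubgroup.neg_mem _ ?_
        have := JJ_mul y (hval a⁻¹) ha
        rwa [zero_add] at this }
  have memS : ∀ (k : ℕ) (g : N), g ∈ S k ↔ ((φ g : Bˣ) : B) - 1 ∈ JJ y k := fun k g => Iff.rfl
  have hlcs : ∀ k : ℕ, (⊤ : Subgroup N).lowerCentralSeries k ≤ S (k + 1) := by
    intro k
    induction k with
    | zero =>
      intro g _
      exact hall g
    | succ k ih =>
      rw [Subgroup.lowerCentralSeries_succ, Subgroup.commutator_le]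
      intro g hg h _
      have hg' := (memS _ _).1 (ih hg)
      rw [memS]
      have e : ((φ ⁅g, h⁆ : Bˣ) : B) - 1 =
          ((((φ g : Bˣ) : B) - 1) * (((φ h : Bˣ) : B) - 1) -
            (((φ h : Bˣ) : B) - 1) * (((φ g : Bˣ) : B) - 1)) * ((φ (g⁻¹ * h⁻¹) : Bˣ) : B) := by
        have e1 : (((φ g : Bˣ) : B) - 1) * (((φ h : Bˣ) : B) - 1) -
            (((φ h : Bˣ) : B) - 1) * (((φ g : Bˣ) : B) - 1) =
            ((φ (g * h) : Bˣ) : B) - ((φ (h * g) : Bˣ) : B) := by
          rw [map_mul, map_mul, Units.val_mul, Units.val_mul]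
          noncomm_ring
        rw [e1, sub_mul, ← Units.val_mul, ← Units.val_mul, ← map_mul, ← map_mul]
        have e2 : g * h * (g⁻¹ * h⁻¹) = ⁅g, h⁆ := by
          rw [commutatorElement_def]; group
        have e3 : h * g * (g⁻¹ * h⁻¹) = 1 := by group
        rw [e2, e3, map_one, Units.val_one]
      rw [e]
      have h1 : (((φ g : Bˣ) : B) - 1) * (((φ h : Bˣ) : B) - 1) ∈ JJ y (k + 1 + 1) :=
        JJ_mul y hg' (hall h)
      have h2 : (((φ h : Bˣ) : B) - 1) * (((φ g : Bˣ) : B) - 1) ∈ JJ y (k + 1 + 1) := by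
        have := JJ_mul y (hall h) hg'
        rwa [add_comm 1 (k + 1)] at this
      have h3 := JJ_mul y (AddSubgroup.sub_mem _ h1 h2) (hval (g⁻¹ * h⁻¹))
      rwa [add_zero] at h3
  intro g hg
  have h1 : ((φ g : Bˣ) : B) - 1 ∈ JJ y T := JJ_anti y (Nat.le_succ T) ((memS _ _).1 (hlcs T hg))
  have h2 : JJ y T ≤ ⊥ := by
    unfold JJ
    rw [AddSubgroup.closure_le]
    rintro z ⟨w, hw, rfl⟩
    exact AddSubgroup.mem_bot.2 (hT w hw)
  have h3 := AddSubgroup.mem_bot.1 (h2 h1)
  rw [MonoidHom.mem_ker]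
  apply Units.ext
  rw [Units.val_one]
  exact sub_eq_zero.1 h3

end Pool.Agent.Helper89.RB
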